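import Pool.Agent.V7H35.AbcCount
import Pool.Agent.N375.AV.D
import Pool.Agent.N375.AV.Ex

/-!
# The `n`-term abc inequality over a number field for ALL points with height near values of additive functions and their
# compositions

Let `K` be a number field, `n ≥ 3`, `𝓗 : Z_1 + ⋯ + Z_n = 0`, and let `𝓩` be the closed subset of `𝓗` where a proper sub-sum of
the coordinates vanishes. Let `h` be the absolute logarithmic height and `H_K = exp ([K : ℚ] h)`; over `ℚ`, `H_K (P)` is the
largest of the absolute values of the coprime integer coordinates.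

Let `F = f_1 ∘ ⋯ ∘ f_k` be a composition of functions dominated by the largest prime factor: for example additive functions
`f` with `f (q^j) ≤ C q^j` at the prime powers, with different values at different large primes (the sum of the prime
factors), the largest prime factor itself, and Kempner's function. Let `G` have steps bounded below by a positive constant and
growth at most `v ^ d`, for example `G v = v` or `a v^d`. Let `M > 0`, `κ ≥ 0` and `d (1 - 1 / binom(n, ⌊n/2⌋)) / M + κ < 1`. For
every `c`, for all `m ≤ N` but `C N exp (- c' (log N)^(1 / (k + 1)))`, ALL points `P` of `𝓗 (K) ∖ 𝓩` with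
`|H_K(P) - G (F m)| ≤ F(m) ^ κ` satisfy `h(P) < M rad(P) + c`. The values of `F` are taken with very large multiplicities and
`F(m)` is in general much smaller than `m`; and so this does not follow from the number of the exceptional points.
-/

set_option autoImplicit false

namespace Pool.Agent.Results.MP_7475bd_nt.AdditiveHeightsH35

open PointsNearAPoint (h rad OffZ)
open Pool.Agent.V7H35.AbcCount (H count exp_nonneg')
open Pool.Agent.N733.TG (Expanding expanding_pow)
open Pool.Agent.N375.AV (PD comp good pd_additive pd_largest pd_kempner)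

/-- **Theorem.** (1) Let `K` be a number field, `n ≥ 3`, `M > 0` and `c` real, `f_1, …, f_k` functions dominated by the largest
prime factor (`PD`), `F = f_1 ∘ ⋯ ∘ f_k` their composition (`comp fs`), `G` with steps `≥ const > 0` and growth at most `v ^ d`,
`κ ≥ 0` and `d (1 - 1 / binom(n, ⌊n/2⌋)) / M + κ < 1`. Then for all `m ≤ N` but `C N exp (- c' (log N)^(1 / (k + 1)))`, ALL
`K`-points `P` of the hyperplane `Z_1 + ⋯ + Z_n = 0` without vanishing proper sub-sums (`OffZ`) with
`|H_K(P) - G (F m)| ≤ F(m) ^ κ` satisfy `h(P) < M rad(P) + c`. (2) - (4) Examples of functions `f_i` and `G`. -/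
theorem result :
    (∀ (K : Type) [Field K] [NumberField K] (n : ℕ), 3 ≤ n → ∀ M c : ℝ, 0 < M →
      ∀ fs : List (ℕ → ℕ), (∀ f ∈ fs, PD f) → ∀ (G : ℕ → ℝ) (d : ℝ), Expanding G d → ∀ κ : ℝ, 0 ≤ κ →
      d * ((1 - 1 / (n.choose (n / 2) : ℝ)) / M) + κ < 1 → ∃ c' C : ℝ, 0 < c' ∧ ∀ N : ℕ, 1 ≤ N →
        ({m : ℕ | 1 ≤ m ∧ m ≤ N ∧ ¬ ∀ P : Projectivization K (Fin n → K), OffZ P →
          |H P - G (comp fs m)| ≤ (comp fs m : ℝ) ^ κ → h P < M * rad P + c}.ncard : ℝ) ≤
        C * N * Real.exp (-(c' * Real.log N ^ ((1 : ℝ) / (fs.length + 1))))) ∧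
    (∀ f : ℕ → ℕ, (∀ a b : ℕ, Nat.Coprime a b → f (a * b) = f a + f b) →
      (∃ C : ℕ, ∀ q j : ℕ, q.Prime → 1 ≤ j → f (q ^ j) ≤ C * q ^ j) →
      (∃ P : ℕ, ∀ p q : ℕ, p.Prime → q.Prime → P ≤ p → P ≤ q → f p = f q → p = q) → PD f) ∧
    (PD (fun n => n.primeFactors.sup id) ∧ PD (fun n => sInf {k : ℕ | n ∣ k.factorial})) ∧
    ∀ a d : ℝ, 0 < a → 1 ≤ d → Expanding (fun v => a * (v : ℝ) ^ d) d := by
  refine ⟨fun K _ _ n hn M c hM fs hfs G d hG κ hκ h1 => ?_, fun f a1 a2 a3 => pd_additive a1 a2 a3,
    ⟨pd_largest, pd_kempner⟩, fun a d ha hd => expanding_pow ha hd⟩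
  exact good (fun P : Projectivization K (Fin n → K) => OffZ P) (fun P => h P < M * rad P + c) (fun P => H P) fs hfs hG
    (exp_nonneg' hM) hκ h1 (count K hn hM c)

end Pool.Agent.Results.MP_7475bd_nt.AdditiveHeightsH35
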