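import Pool.Agent.V7H35.AbcCount
import Pool.Agent.N671.DA.Win

/-!
# The `n`-term abc inequality over a number field for ALL points with height near the denominators of good approximations

Let `K` be a number field, `n ≥ 3`, `𝓗 : Z_1 + ⋯ + Z_n = 0`, and let `𝓩` be the closed subset of `𝓗` where a proper sub-sum of
the coordinates vanishes. Let `h` be the absolute logarithmic height and `H_K = exp ([K : ℚ] h)`; over `ℚ`, `H_K (P)` is the
largest of the absolute values of the coprime integer coordinates.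

Let `α_1, …, α_m` be real numbers. We consider the natural numbers `q` with `‖q α_j - β_j‖ ≤ b q^(-τ)` for all `j`, `‖x‖` the
distance to the nearest integer; for `β = 0`, `b = 1`, `τ = 1 / m` these include the denominators of all best simultaneous
approximations (the denominators of the convergents for `m = 1`). Let `G` have steps bounded below by a positive constant and
growth at most `v^d`, for example `G q = q` or `a q^d`. Let `0 ≤ κ ≤ 1` and `M > 0`. For all `α` in `ℝ^m` outside a set of
Hausdorff dimension at most `(m + d (1 - 1 / binom(n, ⌊n/2⌋)) / M + κ) / (1 + τ)`, for all `b`, `c` and all large `q` of this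
kind, ALL points `P` of `𝓗 (K) ∖ 𝓩` with `|H_K(P) - G(q)| ≤ q^κ` satisfy `h(P) < M rad(P) + c`. For `τ = 1 / m`, `d = 1`,
`M = 1 + ε` and `κ < 1 / binom(n, ⌊n/2⌋)` this holds for almost all `α`: for instance all the points of `𝓗 (ℚ) ∖ 𝓩` whose height is
the denominator of a convergent of `α` satisfy the `n`-term abc inequality. The convergents are very sparse, and so this does
not follow from the number of the exceptional points.
-/

set_option autoImplicit false

namespace Pool.Agent.Results.MP_7475bd_nt.ApproximationHeightsH35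

open PointsNearAPoint (h rad OffZ)
open Pool.Agent.V7H35.AbcCount (H count mono exp_nonneg')
open Pool.Agent.N671.DA (Solves Expanding expanding_pow approx_good)

/-- **Theorem.** (1) Let `K` be a number field, `n ≥ 3`, `M > 0`, `G` with steps `≥ const > 0` and growth at most `v^d`,
`0 ≤ κ ≤ 1`, `β` in `ℝ^m` and `τ > 0`. For all `α` in `ℝ^m` outside a set of Hausdorff dimension at most
`(m + d (1 - 1 / binom(n, ⌊n/2⌋)) / M + κ) / (1 + τ)`, all `b`, `c` and all large `q` with `‖q α_j - β_j‖ ≤ b q^(-τ)` for all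
`j`, ALL `K`-points `P` of the hyperplane `Z_1 + ⋯ + Z_n = 0` without vanishing proper sub-sums (`OffZ`) with
`|H_K(P) - G(q)| ≤ q^κ` satisfy `h(P) < M rad(P) + c`. (2) The functions `a v^d` with `a > 0`, `d ≥ 1` are examples of `G`. -/
theorem result :
    (∀ (K : Type) [Field K] [NumberField K] (n : ℕ), 3 ≤ n → ∀ M : ℝ, 0 < M →
      ∀ (G : ℕ → ℝ) (d : ℝ), Expanding G d → ∀ κ : ℝ, 0 ≤ κ → κ ≤ 1 → ∀ (m : ℕ) (β : Fin m → ℝ) (τ : ℝ), 0 < τ →
      ∃ E : Set (Fin m → ℝ),
        dimH E ≤ ENNReal.ofReal ((m + (d * ((1 - 1 / (n.choose (n / 2) : ℝ)) / M) + κ)) / (1 + τ)) ∧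
        ∀ α, α ∉ E → ∀ b c : ℝ, ∃ Q : ℕ, ∀ q : ℕ, Q ≤ q → Solves α β q (b * (q : ℝ) ^ (-τ)) →
          ∀ P : Projectivization K (Fin n → K), OffZ P → |H P - G q| ≤ (q : ℝ) ^ κ → h P < M * rad P + c) ∧
    ∀ a d : ℝ, 0 < a → 1 ≤ d → Expanding (fun v => a * (v : ℝ) ^ d) d := by
  refine ⟨fun K _ _ n hn M hM G d hG κ hκ hκ1 m β τ hτ => ?_, fun a d ha hd => expanding_pow ha hd⟩
  have key := fun l : ℕ => approx_good (fun P : Projectivization K (Fin n → K) => OffZ P)
    (fun P => h P < M * rad P + (-(l : ℝ))) (fun P => H P) hG (s := (1 - 1 / (n.choose (n / 2) : ℝ)) / M) (κ := κ)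
    (exp_nonneg' hM) hκ hκ1 (count K hn hM (-(l : ℝ))) β hτ
  choose E hE1 hE2 using key
  refine ⟨⋃ l, E l, ?_, fun α hαE b c => ?_⟩
  · rw [dimH_iUnion]
    exact iSup_le hE1
  · obtain ⟨l, hl⟩ := exists_nat_ge (-c)
    rw [Set.mem_iUnion] at hαE
    push Not at hαE
    obtain ⟨Q, hQ⟩ := hE2 l α (hαE l) b
    refine ⟨Q, fun q hq h1 P hP h5 => ?_⟩
    have := hQ q hq h1 P hP h5
    linarith

end Pool.Agent.Results.MP_7475bd_nt.ApproximationHeightsH35
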