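import Pool.Agent.V7H60.NI.Main

set_option autoImplicit false

/-!
# The n-term abc conjecture off one sparse set, for all unirational subvarieties with incomplete
norm forms as factors

`K` is a number field, `H` the hyperplane `z_1 + ⋯ + z_r = 0` of `ℙ^(r-1)`, and `φ : ℙⁿ ⇢ H` a
rational map over `K`, given by forms `f_1, …, f_r` of degree `D` in `x_0, …, x_n` without common
factor, `∑ f_i = 0`, none of them zero. Let

  `f_i = c_i ∏_j F_j ^ (a_ij)`

be the factorisations into irreducible forms over `K`, `k_j = deg F_j`. The factor `F_j` may have the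
weight `m_j` if `m_j ≤ 1`, or if `m_j ≤ k_j` and `F_j` is linear or quadratic, or if `F_j` is the norm
form of a linear form with `m_j` linearly independent coefficients, or - this is new - if `m_j ≤ k_j`
and `F_j` is the norm form of a linear form, from the extension of degree `k_j` which is generated by
the ratios of its coefficients, and MORE THAN `k_j / 2` of the coefficients are linearly independent:
these incomplete norm forms have the full weight. (Examples: all irreducible binary cubic forms; the
forms of degree `k` which are products of `k` conjugate linear forms with linearly independent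
`⌊k / 2⌋ + 1` coefficients.)

There is ONE set `E` of points of `ℙⁿ(K)`, with at most `B ^ (n + 1) exp (- √ log B)` points of
relative height at most `B` (out of about `B ^ (n + 1)`), such that for all `r`, all such maps `φ` and
all `θ < ∑ m_j` there is `C` such that for ALL points `x` of `ℙⁿ(K)` not in `E` for which `z = φ(x)` is
defined and has nonzero coordinates

  `rad(z) ≥ θ h(x) - C` and `h(z) ≤ (D / θ) rad(z) + C`.

The inequality `h(z) < (1 + δ) rad(z) + C` of the conjecture follows, for all these `x`, as soon as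
`∑ m_j ≥ D`.

The new ingredient is a theorem on the truncated counting functions of incomplete norm forms
(`Pool/Agent/V7H60/CV/All.lean`, `coreV`; it completes a project of the starting library).
-/

namespace Pool.Agent.Results.MP_7475bd_nt.IncompleteNormFormsH60

open MvPolynomial NumberField IsDedekindDomain
open scoped LinearAlgebra.Projectivization

variable {K : Type} [Field K] [NumberField K] {n q r : ℕ}

/-- `F` is, up to a constant factor, the norm form of `∑ α i * x i` from an extension `E` of `K`, and
`m` of the `α i` are linearly independent over `K`. -/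
def IsNormForm (F : MvPolynomial (Fin (n + 1)) (𝓞 K)) (m : ℕ) : Prop :=
  ∃ (E : Type) (_ : Field E) (_ : NumberField E) (_ : Algebra K E) (c : K) (α : Fin (n + 1) → E)
    (J : Finset (Fin (n + 1))), c ≠ 0 ∧ J.card = m ∧
      LinearIndependent K (fun j : J => α j) ∧
      ∀ x : Fin (n + 1) → 𝓞 K, ((eval x F : 𝓞 K) : K) =
        c * Algebra.norm K (∑ i, algebraMap K E (x i) * α i)

/-- `F` is, up to a constant factor, the norm form of `∑ α i * x i` from an extension `E` of `K` of
degree `k` which is generated by the ratios of the `α i`, and the `α i` span a vector space over `K` of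
dimension more than `k / 2`. -/
def IsIncompleteNormForm (F : MvPolynomial (Fin (n + 1)) (𝓞 K)) (k : ℕ) : Prop :=
  ∃ (E : Type) (_ : Field E) (_ : NumberField E) (_ : Algebra K E) (c : K) (α : Fin (n + 1) → E)
    (i₀ : Fin (n + 1)), c ≠ 0 ∧ Module.finrank K E = k ∧ α i₀ ≠ 0 ∧
      IntermediateField.adjoin K (Set.range fun i => α i / α i₀) = ⊤ ∧
      k < 2 * Module.finrank K (Submodule.span K (Set.range α)) ∧
      ∀ x : Fin (n + 1) → 𝓞 K, ((eval x F : 𝓞 K) : K) =
        c * Algebra.norm K (∑ i, algebraMap K E (x i) * α i)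

/-- The form `F` of degree `k` has the weight `m`. -/
def Weight (F : MvPolynomial (Fin (n + 1)) (𝓞 K)) (k m : ℕ) : Prop :=
  m ≤ 1 ∨ (m ≤ k ∧ k ≤ 2) ∨ IsNormForm F m ∨ (m ≤ k ∧ IsIncompleteNormForm F k)

/-- The point `z` with the coordinates `z_i = c_i ∏_j F_j(x) ^ (a_ij)`. -/
noncomputable def point (F : Fin q → MvPolynomial (Fin (n + 1)) (𝓞 K)) (a : Fin r → Fin q → ℕ)
    (c : Fin r → K) (x : Fin (n + 1) → K) : Fin r → K :=
  fun i => c i * ∏ j, aeval x (F j) ^ a i j

/-- The absolute logarithmic height `h(z)` of the point with homogeneous coordinates `z`. -/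
noncomputable def height {s : ℕ} (z : Fin s → K) : ℝ := Height.logHeight z / Module.finrank ℚ K

open Classical in
/-- `rad(z)`: the sum of `log N(v) / [K : ℚ]` over the primes `v` of `K` at which the coordinates do
not all have the same absolute value. -/
noncomputable def radical (z : Fin r → K) : ℝ :=
  (∑ᶠ v : HeightOneSpectrum (𝓞 K), if ∃ i j, FinitePlace.mk v (z i) ≠ FinitePlace.mk v (z j)
    then Real.log (Ideal.absNorm v.asIdeal) else 0) / Module.finrank ℚ K

theorem weight_iff {F : MvPolynomial (Fin (n + 1)) (𝓞 K)} {k m : ℕ} (h : Weight F k m) :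
    Pool.Agent.V7H60.NI.Weight F k m := by
  rcases h with h | h | h | ⟨h, E, i1, i2, i3, c, α, i₀, h1, h2, h3, h4, h5, h6⟩
  · exact Or.inl h
  · exact Or.inr (Or.inl h)
  · exact Or.inr (Or.inr (Or.inl h))
  · exact Or.inr (Or.inr (Or.inr ⟨h, E, i1, i2, i3, c, α, h1, h2,
      ⟨⟨i₀, h3, h4⟩, by rw [h2]; exact h5⟩, h6⟩))

/-- **The n-term abc inequality off one sparse set, for all rational maps at once.** -/
theorem result (K : Type) [Field K] [NumberField K] (n : ℕ) :
    -- one exceptional set of density zero
    ∃ E : Set (ℙ K (Fin (n + 1) → K)),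
      (∀ B : ℝ, 1 ≤ B → {P : ℙ K (Fin (n + 1) → K) | P ∈ E ∧ P.mulHeight ≤ B}.Finite ∧
        ({P : ℙ K (Fin (n + 1) → K) | P ∈ E ∧ P.mulHeight ≤ B}.ncard : ℝ) ≤
          B ^ (n + 1) * Real.exp (-√(Real.log B))) ∧
      -- the irreducible factors and their weights
      ∀ (q r : ℕ) (F : Fin q → MvPolynomial (Fin (n + 1)) (𝓞 K)) (k m : Fin q → ℕ),
        (∀ j, (F j).IsHomogeneous (k j)) →
        (∀ j, Irreducible (map (algebraMap (𝓞 K) K) (F j))) →
        (∀ i j, i ≠ j →
          ¬ Associated (map (algebraMap (𝓞 K) K) (F i)) (map (algebraMap (𝓞 K) K) (F j))) →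
        (∀ j, Weight (F j) (k j) (m j)) →
        -- the forms `f_i = c_i ∏_j F_j ^ (a_ij)` of degree `D`
        ∀ (D : ℕ) (a : Fin r → Fin q → ℕ), (∀ i, ∑ j, a i j * k j = D) →
        (∀ j, ∃ i, 1 ≤ a i j) → (∀ j, ∃ i, a i j = 0) →
        ∀ c : Fin r → K, (∀ i, c i ≠ 0) →
        ∑ i, C (c i) * ∏ j, map (algebraMap (𝓞 K) K) (F j) ^ a i j = 0 →
        ∀ θ : ℝ, 0 < θ → θ < ∑ j, (m j : ℝ) →
        ∃ C : ℝ, ∀ P : ℙ K (Fin (n + 1) → K), P ∉ E → (∀ i, point F a c P.rep i ≠ 0) →
          ∑ i, point F a c P.rep i = 0 ∧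
          θ * height P.rep ≤ radical (point F a c P.rep) + C ∧
          height (point F a c P.rep) ≤ D / θ * radical (point F a c P.rep) + C := by
  have hd0 : (1 : ℝ) ≤ Module.finrank ℚ K := by
    exact_mod_cast (Module.finrank_pos (R := ℚ) (M := K))
  have hd1 : (0 : ℝ) < Module.finrank ℚ K := by linarith
  obtain ⟨E, hE1, hE2⟩ := Pool.Agent.V7H60.NI.main K n
  refine ⟨E, ?_, ?_⟩
  · intro B hB
    have hlog : 0 ≤ Real.log B := Real.log_nonneg hB
    obtain ⟨h1, h2⟩ := hE1 (Real.log B) hlog
    have he : {P : ℙ K (Fin (n + 1) → K) | P ∈ E ∧ P.mulHeight ≤ B} =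
        {P : ℙ K (Fin (n + 1) → K) | P ∈ E ∧ Height.logHeight P.rep ≤ Real.log B} := by
      ext P
      have h3 := Pool.Agent.V7H60.NI.one_le_height P
      simp only [Set.mem_ofPred_eq]
      rw [Pool.Agent.V7H60.NI.logHeight_eq,
        Real.log_le_log_iff (by linarith) (by linarith)]
    rw [he]
    refine ⟨h1, h2.trans (le_of_eq ?_)⟩
    rw [sub_eq_add_neg, Real.exp_add, mul_comm ((n + 1 : ℕ) : ℝ), Real.exp_mul,
      Real.exp_log (by linarith), Real.rpow_natCast]
  · intro q r F k m hhom hirr hdist hm D a ha hpos hzero c hc hsum θ hθ0 hθ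
    obtain ⟨C, h⟩ := hE2 q r F k m hhom hirr hdist (fun j => weight_iff (hm j)) D a ha hpos
      hzero c hc θ hθ0 hθ
    refine ⟨max C 0, ?_⟩
    intro P hPE hz
    obtain ⟨h3, h4⟩ := h P hPE hz
    have e1 : Pool.Agent.R366.AB.pt F a c P.rep = point F a c P.rep := rfl
    have e2 : radical (point F a c P.rep) =
      Pool.Agent.R366.AB.radK (point F a c P.rep) / Module.finrank ℚ K := rfl
    rw [e1] at h3 h4
    have h5 : C / Module.finrank ℚ K ≤ max C 0 := by
      rw [div_le_iff₀ hd1]
      have h6 := le_max_left C 0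
      have h7 := le_max_right C 0
      nlinarith
    refine ⟨?_, ?_, ?_⟩
    · have h6 := congrArg (eval P.rep) hsum
      rw [map_sum, map_zero] at h6
      rw [← h6]
      refine Finset.sum_congr rfl fun i _ => ?_
      rw [point, map_mul, eval_C, map_prod]
      congr 1
      refine Finset.prod_congr rfl fun j _ => ?_
      rw [map_pow, Pool.Agent.R366.AB.aeval_eq_eval]
    · rw [e2, height]
      have h6 := div_le_div_of_nonneg_right h3 hd1.le
      rw [add_div, mul_div_assoc] at h6
      linarith
    · rw [e2, height]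
      have h6 := div_le_div_of_nonneg_right h4 hd1.le
      rw [add_div, mul_div_assoc] at h6
      linarith

end Pool.Agent.Results.MP_7475bd_nt.IncompleteNormFormsH60
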