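import Pool.Agent.V7H35.AbcCount
import Pool.Agent.R482.ST.Star

/-!
# The `n`-term abc inequality over a number field for ALL points with height near powers, orbits and other sequences

Let `K` be a number field, `n ≥ 3`, `𝓗 : Z_1 + ⋯ + Z_n = 0`, and let `𝓩` be the closed subset of `𝓗` where a proper sub-sum of
the coordinates vanishes. Let `h` be the absolute logarithmic height and `H_K = exp ([K : ℚ] h)`; over `ℚ`, `H_K (P)` is the
largest of the absolute values of the coprime integer coordinates.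

Let `f_k`, `k = 0, 1, 2, …`, be positive functions on `(a, ∞)`, `a ≥ 0`, such that `f_k(t) / t` is nondecreasing, and such
that the sequence `f_k(t)` has exponent of convergence at most `τ` for each `t > a`: for instance `f_k(t) = t ^ (v_k)` for
exponents `v_k ≥ 1` (`τ = 0`; all powers, the powers `t ^ (3 ^ k)` of Mills, …), the orbits `f_k(t) = g (g (⋯ g (t)))` of any
map `g` with `g(t) > t` and `g(t) / t` nondecreasing (`τ = 0`), and `f_k(t) = v_k t`. Let `θ < 1` and `M > 0`.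

For all `α > a` outside a set of Hausdorff dimension at most `((1 - 1 / binom(n, ⌊n/2⌋)) / M + τ) / (1 - θ)`, for all `b`, `c`
and all but finitely many `k`, ALL points `P` of `𝓗 (K) ∖ 𝓩` with `|H_K(P) - f_k(α)| ≤ b f_k(α) ^ θ` satisfy
`h(P) < M rad(P) + c`. For powers and orbits (`τ = 0`), `M = 1 + ε` and `θ < 1 / binom(n, ⌊n/2⌋)` the dimension is smaller than
`1`, and for almost all `α` the `n`-term abc inequality, with any constant, holds for all the points of the windows; over `ℚ`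
there are about `f_k(α) ^ (n - 2 + θ)` points of `𝓗 (ℚ)` with heights in a window. As `M → ∞` the dimension tends to `0`
(`τ = 0`).
-/

set_option autoImplicit false

namespace Pool.Agent.Results.MP_7475bd_nt.StarshapedHeightsH35

open PointsNearAPoint (h rad OffZ)
open Pool.Agent.V7H35.AbcCount (H count mono exp_nonneg')

/-- the functions `f n` are positive on `(a, ∞)`, `a ≥ 0`, and `f n x / x` is nondecreasing there -/
def Starshaped (a : ℝ) (f : ℕ → ℝ → ℝ) : Prop :=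
  0 ≤ a ∧ ∀ n : ℕ, ∀ x y : ℝ, a < x → x ≤ y → 0 < f n x ∧ f n x / x ≤ f n y / y

/-- for each `x > a` the exponent of convergence of the sequence `f n x` is at most `τ` -/
def ExpLe (a : ℝ) (f : ℕ → ℝ → ℝ) (τ : ℝ) : Prop :=
  ∀ x : ℝ, a < x → ∀ t : ℝ, τ < t → Summable (fun n : ℕ => (f n x) ^ (-t))

/-- **Theorem.** Let `K` be a number field, `n ≥ 3`, `M > 0`, `f` starshaped functions on `(a, ∞)` of exponent of convergence at
most `τ ≥ 0` and `θ < 1`. (1) There is a set `E` of Hausdorff dimension at most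
`((1 - 1 / binom(n, ⌊n/2⌋)) / M + τ) / (1 - θ)` such that for all `α > a` outside `E`, all `b`, `c` and all but finitely many
`k`, ALL `K`-points `P` of the hyperplane `Z_1 + ⋯ + Z_n = 0` without vanishing proper sub-sums (`OffZ`) with
`|H_K(P) - f_k(α)| ≤ b f_k(α) ^ θ` satisfy `h(P) < M rad(P) + c`.
(2) - (4) The functions `v_n x`, `v_n > 0`, are starshaped on `(0, ∞)`, of exponent `τ` if `v` has exponent of convergence at
most `τ`; the functions `x ^ (v_n)`, `v_n ≥ 1`, are starshaped on `(1, ∞)`, of exponent `0` if the sums of `exp (-t v_n)`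
converge for `t > 0`; and the iterates of a map `g` with `g(x) > x` for `x > a` and `g(x) / x` nondecreasing are starshaped on
`(a, ∞)`, of exponent `0`. -/
theorem result :
    (∀ (K : Type) [Field K] [NumberField K] (n : ℕ), 3 ≤ n → ∀ M : ℝ, 0 < M →
      ∀ (a : ℝ) (f : ℕ → ℝ → ℝ) (τ θ : ℝ), Starshaped a f → 0 ≤ τ → ExpLe a f τ → θ < 1 →
      ∃ E : Set ℝ, dimH E ≤ ENNReal.ofReal (((1 - 1 / (n.choose (n / 2) : ℝ)) / M + τ) / (1 - θ)) ∧
        ∀ α : ℝ, a < α → α ∉ E → ∀ b c : ℝ, ∃ k₀ : ℕ, ∀ k : ℕ, k₀ ≤ k → ∀ P : Projectivization K (Fin n → K), OffZ P →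
          |H P - f k α| ≤ b * (f k α) ^ θ → h P < M * rad P + c) ∧
    (∀ (v : ℕ → ℝ) (τ : ℝ), (∀ n, 0 < v n) → (∀ t : ℝ, τ < t → Summable (fun n : ℕ => (v n) ^ (-t))) →
      Starshaped 0 (fun n x => v n * x) ∧ ExpLe 0 (fun n x => v n * x) τ) ∧
    (∀ v : ℕ → ℝ, (∀ n, 1 ≤ v n) → (∀ t : ℝ, 0 < t → Summable fun n : ℕ => Real.exp (-(t * v n))) →
      Starshaped 1 (fun n x => x ^ (v n)) ∧ ExpLe 1 (fun n x => x ^ (v n)) 0) ∧
    (∀ (a : ℝ) (g : ℝ → ℝ), 0 ≤ a → (∀ x y : ℝ, a < x → x ≤ y → g x / x ≤ g y / y) → (∀ x : ℝ, a < x → x < g x) →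
      Starshaped a (fun n x => g^[n] x) ∧ ExpLe a (fun n x => g^[n] x) 0) := by
  refine ⟨fun K _ _ n hn M hM a f τ θ hf hτ hE hθ => ?_, Pool.Agent.R482.ST.ex_mul, Pool.Agent.R482.ST.ex_pow,
    Pool.Agent.R482.ST.ex_orbit⟩
  have key2 : ∀ l : ℕ, ∃ E : Set ℝ, dimH E ≤ ENNReal.ofReal (((1 - 1 / (n.choose (n / 2) : ℝ)) / M + τ) / (1 - θ)) ∧
      ∀ α : ℝ, a < α → α ∉ E → ∀ b : ℝ, ∃ k₀ : ℕ, ∀ k : ℕ, k₀ ≤ k →
        ∀ P ∈ {P : Projectivization K (Fin n → K) | OffZ P ∧ ¬ h P < M * rad P + (-(l : ℝ))},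
          b * (f k α) ^ θ < |H P - f k α| := fun l =>
    Pool.Agent.R482.ST.windows {P : Projectivization K (Fin n → K) | OffZ P ∧ ¬ h P < M * rad P + (-(l : ℝ))}
      (fun P => H P) hf hτ hE (s := (1 - 1 / (n.choose (n / 2) : ℝ)) / M) (exp_nonneg' hM) hθ
      (count K hn hM (-(l : ℝ)))
  choose E hE1 hE2 using key2
  refine ⟨⋃ l, E l, ?_, fun α hα hαE b c => ?_⟩
  · rw [dimH_iUnion]
    exact iSup_le hE1
  · obtain ⟨l, hl⟩ := exists_nat_ge (-c)
    rw [Set.mem_iUnion] at hαE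
    push Not at hαE
    obtain ⟨k₀, hk⟩ := hE2 l α hα (hαE l) b
    refine ⟨k₀, fun k hk1 P hP h5 => ?_⟩
    by_contra hcon
    exact absurd h5 (not_le.2 (hk k hk1 P ⟨hP, mono (by linarith) hcon⟩))

end Pool.Agent.Results.MP_7475bd_nt.StarshapedHeightsH35
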